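import Pool.Agent.Helper50.Tm.Goals

/-!
The power map acts on the cotangent space at the unit as multiplication by the exponent.
-/

open CategoryTheory AlgebraicGeometry Limits TensorProduct MonoidalCategory
open scoped Obj

namespace Pool.Agent.Helper77.Tm

open Pool.Agent.Helper50.Tm
open Pool.Agent.Helper40.Nm (specOver homGroup specialFibre)
open TrivSqZeroExt (fstHom inlAlgHom inr inl)

/-- multiplication by `a` on the dual numbers -/
noncomputable def mulD (k : Type) [Field k] (a : k) : TrivSqZeroExt k k →ₐ[k] TrivSqZeroExt k k :=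
  TrivSqZeroExt.map (a • LinearMap.id)

theorem dual_aux (hEHP : EHP) (k : Type) [Field k] (G : Over (Spec (CommRingCat.of k))) [GrpObj G]
    (x : Pts G (TrivSqZeroExt k k)) (hx : x.map (fstHom k k k) = 1) (n : ℕ) :
    x ^ n = x.map (mulD k (n : k)) := by
  induction n with
  | zero =>
    have h1 : mulD k ((0 : ℕ) : k) = (inlAlgHom k k k).comp (fstHom k k k) := by
      apply AlgHom.ext
      intro a
      apply TrivSqZeroExt.ext
      · simp [mulD]
      · simp [mulD]
    rw [h1, Pts.map_comp, hx, Pts.map_one, pow_zero]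
  | succ n ih =>
    let p₁ : TrivSqZeroExt k (k × k) →ₐ[k] TrivSqZeroExt k k :=
      TrivSqZeroExt.map (LinearMap.fst k k k)
    let p₂ : TrivSqZeroExt k (k × k) →ₐ[k] TrivSqZeroExt k k :=
      TrivSqZeroExt.map (LinearMap.snd k k k)
    let i₁ : TrivSqZeroExt k k →ₐ[k] TrivSqZeroExt k (k × k) :=
      TrivSqZeroExt.map (LinearMap.inl k k k)
    let i₂ : TrivSqZeroExt k k →ₐ[k] TrivSqZeroExt k (k × k) :=
      TrivSqZeroExt.map (LinearMap.inr k k k)
    let t : TrivSqZeroExt k k →ₐ[k] TrivSqZeroExt k (k × k) :=
      TrivSqZeroExt.map (LinearMap.prod ((n : k) • LinearMap.id) LinearMap.id)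
    let s : TrivSqZeroExt k (k × k) →ₐ[k] TrivSqZeroExt k k :=
      TrivSqZeroExt.map (LinearMap.coprod LinearMap.id LinearMap.id)
    have hT := hEHP k G (TrivSqZeroExt k (k × k)) (TrivSqZeroExt k k) p₁ p₂ i₁ i₂ (fstHom k k k)
      (by intro d; simp [p₁, p₂])
      (by
        intro d h1 h2
        have e1 := congrArg TrivSqZeroExt.fst h1
        have e2 := congrArg TrivSqZeroExt.snd h1
        have e3 := congrArg TrivSqZeroExt.snd h2
        simp only [p₁, p₂, TrivSqZeroExt.fst_map, TrivSqZeroExt.snd_map, LinearMap.fst_apply,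
          LinearMap.snd_apply, TrivSqZeroExt.fst_zero, TrivSqZeroExt.snd_zero] at e1 e2 e3
        apply TrivSqZeroExt.ext
        · exact e1
        · exact Prod.ext e2 e3)
      (by
        intro a
        apply TrivSqZeroExt.ext
        · simp [p₁, i₁]
        · simp [p₁, i₁])
      (by
        intro a
        apply TrivSqZeroExt.ext
        · simp [p₂, i₂]
        · simp [p₂, i₂])
      (by
        intro a
        apply TrivSqZeroExt.ext
        · simp [p₁, i₂, TrivSqZeroExt.algebraMap_eq_inl]
        · simp [p₁, i₂, TrivSqZeroExt.algebraMap_eq_inl])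
      (by
        intro a
        apply TrivSqZeroExt.ext
        · simp [p₂, i₁, TrivSqZeroExt.algebraMap_eq_inl]
        · simp [p₂, i₁, TrivSqZeroExt.algebraMap_eq_inl])
      (by
        intro a ha
        refine ⟨2, ?_⟩
        rw [pow_two]
        have ha' : TrivSqZeroExt.fst a = 0 := ha
        apply TrivSqZeroExt.ext
        · simp [ha']
        · simp [ha'])
      (x.map (mulD k (n : k))) x (x.map t)
      (by
        rw [← Pts.map_comp]
        have h1 : (fstHom k k k).comp (mulD k (n : k)) = fstHom k k k :=
          TrivSqZeroExt.fstHom_comp_map _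
        rw [h1, hx])
      hx
      (by
        rw [← Pts.map_comp]
        congr 1
        apply AlgHom.ext
        intro a
        apply TrivSqZeroExt.ext
        · simp [p₁, t, mulD]
        · simp [p₁, t, mulD])
      (by
        rw [← Pts.map_comp]
        have h1 : p₂.comp t = AlgHom.id k _ := by
          apply AlgHom.ext
          intro a
          apply TrivSqZeroExt.ext
          · simp [p₂, t]
          · simp [p₂, t]
        rw [h1, Pts.map_id])
    have hs := congrArg (fun y => Pts.map s y) hT
    simp only [Pts.map_mul] at hs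
    rw [← Pts.map_comp, ← Pts.map_comp i₁ s, ← Pts.map_comp i₂ s] at hs
    have h1 : s.comp t = mulD k ((n + 1 : ℕ) : k) := by
      apply AlgHom.ext
      intro a
      apply TrivSqZeroExt.ext
      · simp [s, t, mulD]
      · simp [s, t, mulD, add_mul]
    have h2 : s.comp i₁ = AlgHom.id k _ := by
      apply AlgHom.ext
      intro a
      apply TrivSqZeroExt.ext
      · simp [s, i₁]
      · simp [s, i₁]
    have h3 : s.comp i₂ = AlgHom.id k _ := by
      apply AlgHom.ext
      intro a
      apply TrivSqZeroExt.ext
      · simp [s, i₂]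
      · simp [s, i₂]
    rw [h1, h2, h3, Pts.map_id, Pts.map_id] at hs
    rw [hs, pow_succ, ih]

theorem gDUAL (hEHP : Pool.Agent.Helper50.Tm.EHP) : Pool.Agent.Helper50.Tm.DUAL := by
  intro k _ G _ n x c hc hx
  rw [dual_aux hEHP k G x hx n]
  congr 1
  apply TrivSqZeroExt.algHom_ext
  intro m
  rw [hc, mulD, TrivSqZeroExt.map_inr]
  simp

end Pool.Agent.Helper77.Tm
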